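import Pool.Agent.Q282.UZ.Sys
import Pool.Agent.Z125.UN.Grad
import Pool.Agent.Y116.UV.Graph

/-!
# Sparse trilinear hypersurfaces

Over `ℤ` and its quotients every property with the closure properties `Bnd` is decided by the smooth affine
hypersurfaces `∑_{(i, j, k) ∈ S} x_i y_j z_k = 1` in which every variable `x_i` occurs in at most three
monomials.
-/

set_option autoImplicit false

open CategoryTheory AlgebraicGeometry MvPolynomial Pool.Agent.Y116.UV Pool.Agent.Z125.UN
  Pool.Agent.Q282.UZ

namespace Pool.Agent.U213.TB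

/-- Every variable `x_i` occurs in at most three monomials of `∑_{(i, j, k) ∈ S} x_i y_j z_k`. -/
def Sparse {a b c : ℕ} (S : Finset (Fin a × Fin b × Fin c)) : Prop :=
  ∀ i : Fin a, (S.filter fun h => h.1 = i).card ≤ 3

/-- the set of triples of a family of sets of pairs -/
def triples {a b c : ℕ} (E : Fin c → Finset (Fin a × Fin b)) : Finset (Fin c × Fin a × Fin b) :=
  Finset.univ.filter fun h => h.2 ∈ E h.1

lemma mem_triples {a b c : ℕ} (E : Fin c → Finset (Fin a × Fin b)) (l : Fin c) (i : Fin a)
    (j : Fin b) : (l, i, j) ∈ triples E ↔ (i, j) ∈ E l := by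
  rw [triples, Finset.mem_filter]
  exact ⟨fun h => h.2, fun h => ⟨Finset.mem_univ _, h⟩⟩

lemma sparse_triples {a b c : ℕ} (E : Fin c → Finset (Fin a × Fin b)) (h : ∀ l, (E l).card ≤ 3) :
    Sparse (triples E) := by
  intro l
  refine le_trans ?_ (h l)
  refine Finset.card_le_card_of_injOn (fun h => h.2) ?_ ?_
  · intro x hx
    have h1 := Finset.mem_filter.1 hx
    have h2 := (Finset.mem_filter.1 h1.1).2
    rw [h1.2] at h2
    exact h2
  · intro x hx y hy hxy
    have h1 := (Finset.mem_filter.1 hx).2
    have h2 := (Finset.mem_filter.1 hy).2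
    exact Prod.ext (h1.trans h2.symm) hxy

section

variable {R : Type} [CommRing R] {sep : Prop} {P : Sch R → Prop}

lemma few_eq {a b c : ℕ} (E : Fin c → Finset (Fin a × Fin b)) (l : Fin c) :
    few R (E l) = bl (fun l i j => if (l, i, j) ∈ triples E then (1 : R) else 0) l := by
  classical
  change _ = ∑ i, ∑ j, C (if (l, i, j) ∈ triples E then (1 : R) else 0) * X (Sum.inl i) *
    X (Sum.inr j)
  simp only [mem_triples]
  have h2 : (∑ i : Fin a, ∑ j : Fin b, C (if (i, j) ∈ E l then (1 : R) else 0) * X (Sum.inl i) *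
      X (Sum.inr j) : MvPolynomial (Fin a ⊕ Fin b) R) =
      ∑ e : Fin a × Fin b, if e ∈ E l then X (Sum.inl e.1) * X (Sum.inr e.2) else 0 := by
    rw [Fintype.sum_prod_type]
    refine Finset.sum_congr rfl fun i _ => Finset.sum_congr rfl fun j _ => ?_
    split_ifs
    · rw [C_1, one_mul]
    · rw [C_0, zero_mul, zero_mul]
  rw [h2, few, ← Finset.sum_filter]
  congr 1
  ext e
  simp

/-- A system of bilinear equations and the corresponding trilinear hypersurface. -/
theorem sys_iff (hP : Bnd sep P) {a b c : ℕ} (E : Fin c → Finset (Fin a × Fin b)) :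
    P (sysS R E) ↔ P (tripS R (triples E)) := by
  have h1 := hyp_iff hP (fun (l : Fin c) (i : Fin a) (j : Fin b) =>
    if (l, i, j) ∈ triples E then (1 : R) else 0)
  have h2 : tripS R (triples E) = aff R (Hyp fun (l : Fin c) (i : Fin a) (j : Fin b) =>
      if (l, i, j) ∈ triples E then (1 : R) else 0) := by
    unfold tripS Trip Hyp
    rw [tri_ind]
  rw [h2, h1]
  have h3 : (fun l => few R (E l)) =
      bl (fun l i j => if (l, i, j) ∈ triples E then (1 : R) else 0) := funext fun l => few_eq E l
  unfold sysS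
  rw [h3]
  constructor
  · exact iso_alg hP.toUni (oneE _)
  · intro h
    exact iso_alg hP.toUni (oneE _).symm h

lemma clo_of_bnd (hP : Bnd sep P) : Pool.Agent.Q282.UK.Clo sep P where
  iso := hP.iso
  total := hP.total
  opened := hP.opened
  torus := hP.torus

/-- **Sparse hypersurfaces.** -/
theorem sparse_iff (hR : ShortPresents R) (hP : Bnd sep P) :
    (∀ X : Sch R, FT sep X → P X) ↔
      ∀ (a b c : ℕ) (S : Finset (Fin a × Fin b × Fin c)), Sparse S → P (tripS R S) := by
  constructor
  · intro h a b c S _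
    exact h _ (ft_aff sep)
  · intro h
    refine (three_iff hR (clo_of_bnd hP)).2 fun a b c E hE => ?_
    exact (sys_iff hP E).2 (h _ _ _ _ (sparse_triples E hE))

end

end Pool.Agent.U213.TB
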