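import Pool.Agent.U213.TB.Lin
import Pool.Agent.Y116.UV.Defs

/-!
# Motivic homology, `ℓ`-adic homology and the regulator, formally

`k` is a finite field with `q` elements and `Λ = ℚ_ℓ`. For a separated scheme `X` of finite type over `k`
(not necessarily quasi-projective) and `i j : ℤ` the theory gives the motivic homology
`H_i^M(X, ℚ(j)) = CH_j(X, i - 2j)_ℚ`, the `ℓ`-adic homology `H_i(X_k̄, ℚ_ℓ(j))` with the geometric Frobenius,
and the regulator.
-/

set_option autoImplicit false

open CategoryTheory AlgebraicGeometry Module Pool.Agent.Y116.UV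

namespace Pool.Agent.U213.TB

universe u v

/-- The sequence `... → U (i + 1) → Z i → X i → U i → ...` is exact for suitable morphisms, both for
motivic and for `ℓ`-adic homology. -/
def LongExact {Λ : Type u} [Field Λ] [CharZero Λ] (Z X U : ℤ → Reg.{u, v} Λ) : Prop :=
  ∃ (d : ∀ i, Reg.Hom (U (i + 1)) (Z i)) (a : ∀ i, Reg.Hom (Z i) (X i)) (b : ∀ i, Reg.Hom (X i) (U i)),
    (∀ i, Reg.Exact (d i) (a i)) ∧ (∀ i, Reg.Exact (a i) (b i)) ∧ ∀ i, Reg.Exact (b (i + 1)) (d i)

/-- The image of the open immersion `j` is the complement of `f = 0` in `Spec A`. -/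
def IsCompl {R A : Type} [CommRing R] [CommRing A] [Algebra R A] {m : ℕ} (f : Fin m → A) {U : Sch R}
    (j : U ⟶ aff R A) : Prop :=
  IsOpenImmersion j.left ∧ Set.range j.left = {x : PrimeSpectrum A | ∃ l, f l ∉ x.asIdeal}

/-- Motivic homology and `ℓ`-adic homology of the separated schemes of finite type over the field `k`
with `q` elements, with the regulator: `H i j X` stands for
`H_i^M(X, ℚ(j)) → H_i(X_k̄, ℚ_ℓ(j))`, and the fields are the properties which are used. -/
structure Homology (k : Type) [Field k] (q : ℕ) (Λ : Type u) [Field Λ] [CharZero Λ] where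
  /-- the regulator on the homology of degree `i` and twist `j` -/
  H : ℤ → ℤ → Sch k → Reg.{u, v} Λ
  /-- isomorphic schemes have isomorphic homology -/
  iso : ∀ (i j : ℤ) (X Y : Sch k), FT True X → Nonempty (X ≅ Y) → Reg.IsIso (H i j X) (H i j Y)
  /-- the homology of the empty scheme is zero -/
  empty : ∀ (i j : ℤ) (X : Sch k), IsEmpty X.left →
    Subsingleton (H i j X).M ∧ Subsingleton (H i j X).V
  /-- the localization sequences of a closed subscheme `Z` of `X` with open complement `U`, and their
  compatibility with the regulators (Bloch, Jannsen) -/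
  sequence : ∀ (j : ℤ) {Z X U : Sch k} (a : Z ⟶ X) (b : U ⟶ X), FT True X → IsTriple a b →
    LongExact (fun i => H i j Z) (fun i => H i j X) (fun i => H i j U)
  /-- the homology of a point: the rational `K`-theory of a finite field is `ℚ` in degree `0` (Quillen),
  the geometric Frobenius acts on `ℚ_ℓ(-j)` by `q ^ j`, and the regulator is an isomorphism for
  `i = j = 0` -/
  point : (∀ i j : ℤ, (i ≠ 0 ∨ j ≠ 0) → Subsingleton (H i j (aff k k)).M) ∧
    (∀ i j : ℤ, i ≠ 0 → Subsingleton (H i j (aff k k)).V) ∧
    (∀ (j : ℤ) (x), (H 0 j (aff k k)).Φ x = (q : Λ) ^ j • x) ∧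
    Function.Bijective (H 0 0 (aff k k)).ext
  /-- homotopy invariance: Jouanolou's scheme `∑ f_l w_l = 1` in `m + 1` variables is an affine bundle of
  rank `m` over the complement of `f = 0` in `Spec A` -/
  bundle : ∀ (i j : ℤ) (A : Type) [CommRing A] [Algebra k A] [Algebra.FiniteType k A] (m : ℕ)
    (f : Fin (m + 1) → A) (U : Sch k) (o : U ⟶ aff k A), IsCompl f o →
    Reg.IsIso (H i j U) (H (i + 2 * m) (j + m) (aff k (Jou f)))
  /-- `H_i(X, j)` is a direct factor of `H_(i + 1)(X × 𝔾_m, j)`: product with the class of the coordinate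
  `t` in `H_1(𝔾_m, 0)`, and the boundary map of `X ⊂ X × 𝔸¹` -/
  torus : ∀ (i j : ℤ) (A : Type) [CommRing A] [Algebra k A] [Algebra.FiniteType k A],
    Reg.IsFactor (H i j (aff k A)) (H (i + 1) j (aff k (LaurentPolynomial A)))

namespace Homology

variable {k : Type} [Field k] {q : ℕ} {Λ : Type u} [Field Λ] [CharZero Λ]
  (T : Homology.{u, v} k q Λ)

/-- `TB(X)`: for all `i` and `j` the regulator induces an isomorphism from `H_i^M(X, ℚ(j)) ⊗ ℚ_ℓ` to the
Galois invariants of `H_i(X_k̄, ℚ_ℓ(j))`, and the eigenvalue `1` of the Frobenius is semisimple. -/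
def TB (X : Sch k) : Prop := ∀ i j : ℤ, (T.H i j X).IsTB

/-- `TB(X)` in the twist `j`, for all degrees `i`. -/
def TBTwist (j : ℤ) (X : Sch k) : Prop := ∀ i : ℤ, (T.H i j X).IsTB

/-- TB for the separated schemes of finite type of dimension at most `n`. -/
def TBDim (n : ℕ) : Prop :=
  ∀ X : Sch k, FT True X → topologicalKrullDim X.left ≤ n → T.TB X

/-- TB for the trilinear hypersurfaces `T(x, y, z) = 1` over `k` with at most `m` variables in one of the
three blocks of variables. -/
def TBTri (m : ℕ) : Prop :=
  ∀ (a b c : ℕ) (F : Fin a → Fin b → Fin c → k), (a ≤ m ∨ b ≤ m ∨ c ≤ m) → T.TB (hypS F)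

/-- TB for the members of dimension at most `n` of a class of schemes. -/
def TBPr (C : Sch k → Prop) (n : ℕ) : Prop :=
  ∀ X : Sch k, C X → topologicalKrullDim X.left ≤ n → T.TB X

end Homology

/-- `C` is a class of schemes over `k` like the class of the smooth projective schemes: its members are
separated of finite type, TB is true for its members of dimension at most one (a known case), and
(de Jong) for every integral affine scheme `Spec A` of finite type and
dimension at most `d` there are a nonempty open subscheme `Spec A[1/w]`, a member `Y` of `C` of dimension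
at most `d`, and an open subscheme `V` of `Y` whose complement has dimension less than `d`, such that
the homology of `Spec A[1/w]` is a direct factor of the one of `V` (for de Jong's alterations there is a
finite flat morphism from `V` onto `Spec A[1/w]`; the factor is given by pull-back and push-forward). -/
structure IsProjClass {k : Type} [Field k] {q : ℕ} {Λ : Type u} [Field Λ] [CharZero Λ]
    (T : Homology.{u, v} k q Λ) (C : Sch k → Prop) : Prop where
  ft : ∀ X, C X → FT True X
  curves : ∀ X, C X → topologicalKrullDim X.left ≤ 1 → T.TB X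
  alteration : ∀ (d : ℕ) (A : Type) [CommRing A] [IsDomain A] [Algebra k A] [Algebra.FiniteType k A],
    ringKrullDim A ≤ d → ∃ (w : A) (Z Y V : Sch k) (i : Z ⟶ Y) (o : V ⟶ Y), w ≠ 0 ∧ IsTriple i o ∧
      C Y ∧ topologicalKrullDim Y.left ≤ d ∧ topologicalKrullDim Z.left < d ∧
      ∀ a b : ℤ, Reg.IsFactor (T.H a b (aff k (Localization.Away w))) (T.H a b V)

/-- The scheme `X` over `K` as a scheme over the prime field. -/
noncomputable def toPrime (p : ℕ) [Fact p.Prime] {K : Type} [Field K] [Algebra (ZMod p) K]
    (X : Sch K) : Sch (ZMod p) :=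
  (Over.map (Spec.map (CommRingCat.ofHom (algebraMap (ZMod p) K)))).obj X

/-- The homology theories over all finite fields of characteristic `p`, for a fixed prime `ℓ ≠ p`. -/
structure System (p : ℕ) [Fact p.Prime] (Λ : Type u) [Field Λ] [CharZero Λ] where
  /-- the theory over the finite field `K` -/
  T : ∀ (K : Type) [Field K] [Finite K] [Algebra (ZMod p) K], Homology.{u, v} K (Nat.card K) Λ
  /-- the homology over the prime field is induced from the homology over `K` -/
  restriction : ∀ (K : Type) [Field K] [Finite K] [Algebra (ZMod p) K] (i j : ℤ) (X : Sch K),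
    FT True X → Reg.IsInduced (Module.finrank (ZMod p) K) ((T K).H i j X)
      ((T (ZMod p)).H i j (toPrime p X))

end Pool.Agent.U213.TB
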