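import Mathlib

/-!
# Regulators from motivic homology to `ℓ`-adic homology: the formal part

For a finite field `k` and `Λ = ℚ_ℓ` (or any field of characteristic zero), a `Reg Λ` is the data of one
motivic homology group, the `ℓ`-adic homology group of the same bidegree with the Frobenius, and the
regulator between them.
-/

set_option autoImplicit false

open Module TensorProduct

namespace Pool.Agent.U213.TB

universe u v

/-- A rational vector space `M` (motivic homology), a finite-dimensional `Λ`-vector space `V` with an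
operator `Φ` (`ℓ`-adic homology with the geometric Frobenius) and a linear map `M → V` (the regulator)
with image in the invariants of `Φ`. -/
structure Reg (Λ : Type u) [Field Λ] [CharZero Λ] where
  /-- motivic homology -/
  M : Type v
  /-- `ℓ`-adic homology -/
  V : Type v
  [grpM : AddCommGroup M]
  [modM : Module ℚ M]
  [grpV : AddCommGroup V]
  [modV : Module Λ V]
  [modQ : Module ℚ V]
  [tower : IsScalarTower ℚ Λ V]
  /-- the Frobenius -/
  Φ : Module.End Λ V
  /-- the regulator -/
  reg : M →ₗ[ℚ] V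
  finite : Module.Finite Λ V
  inv : ∀ m, Φ (reg m) = reg m

attribute [instance] Reg.grpM Reg.modM Reg.grpV Reg.modV Reg.modQ Reg.tower

namespace Reg

variable {Λ : Type u} [Field Λ] [CharZero Λ]

/-- The `Λ`-linear extension `Λ ⊗ M → V` of the regulator. -/
noncomputable def ext (A : Reg.{u, v} Λ) : Λ ⊗[ℚ] A.M →ₗ[Λ] A.V := A.reg.liftBaseChange Λ

/-- The assertion of Tate and Beilinson in one bidegree: the regulator induces an isomorphism from
`Λ ⊗ M` to the invariants of the Frobenius on `V`, and the eigenvalue `1` of the Frobenius on `V` is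
semisimple. -/
structure IsTB (A : Reg.{u, v} Λ) : Prop where
  injective : Function.Injective A.ext
  surjective : ∀ v, A.Φ v = v → ∃ x, A.ext x = v
  semisimple : ∀ (n : ℕ) (v : A.V), ((A.Φ - 1) ^ n) v = 0 → A.Φ v = v

/-- Linear maps which commute with the Frobenius and with the regulators. -/
structure Hom (A B : Reg.{u, v} Λ) where
  /-- the map on motivic homology -/
  m : A.M →ₗ[ℚ] B.M
  /-- the map on `ℓ`-adic homology -/
  v : A.V →ₗ[Λ] B.V
  Φ : ∀ x, v (A.Φ x) = B.Φ (v x)
  reg : ∀ x, v (A.reg x) = B.reg (m x)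

/-- `A → B → C` is exact on both sides. -/
def Exact {A B C : Reg.{u, v} Λ} (f : Hom A B) (g : Hom B C) : Prop :=
  Function.Exact f.m g.m ∧ Function.Exact f.v g.v

/-- `A` and `B` are isomorphic. -/
def IsIso (A B : Reg.{u, v} Λ) : Prop :=
  ∃ f : Hom A B, Function.Bijective f.m ∧ Function.Bijective f.v

/-- `A` is a direct factor of `B`. -/
def IsFactor (A B : Reg.{u, v} Λ) : Prop :=
  ∃ (s : Hom A B) (r : Hom B A), (∀ x, r.m (s.m x) = x) ∧ ∀ x, r.v (s.v x) = x

/-- The generalized eigenspace for the eigenvalue `1`. -/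
def gen (A : Reg.{u, v} Λ) : Submodule Λ A.V := ⨆ n : ℕ, LinearMap.ker ((A.Φ - 1) ^ n)

/-- The complement. -/
def com (A : Reg.{u, v} Λ) : Submodule Λ A.V := ⨅ n : ℕ, LinearMap.range ((A.Φ - 1) ^ n)

lemma mem_gen (A : Reg.{u, v} Λ) {x : A.V} : x ∈ A.gen ↔ ∃ n : ℕ, ((A.Φ - 1) ^ n) x = 0 := by
  have hmono : Monotone fun n : ℕ => LinearMap.ker ((A.Φ - 1) ^ n) := by
    intro a b hab y hy
    obtain ⟨c, rfl⟩ := Nat.exists_eq_add_of_le hab
    change ((A.Φ - 1) ^ (a + c)) y = 0
    rw [add_comm, pow_add, Module.End.mul_apply, show ((A.Φ - 1) ^ a) y = 0 from hy, map_zero]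
  rw [gen, Submodule.mem_iSup_of_directed _ hmono.directed_le]
  rfl

lemma isCompl (A : Reg.{u, v} Λ) : IsCompl A.gen A.com := by
  have := A.finite
  exact LinearMap.isCompl_iSup_ker_pow_iInf_range_pow (A.Φ - 1)

lemma Hom.pow {A B : Reg.{u, v} Λ} (f : Hom A B) (n : ℕ) (x : A.V) :
    f.v (((A.Φ - 1) ^ n) x) = ((B.Φ - 1) ^ n) (f.v x) := by
  induction n generalizing x with
  | zero => rfl
  | succ n ih =>
    rw [pow_succ, Module.End.mul_apply, ih, pow_succ, Module.End.mul_apply]
    congr 1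
    rw [LinearMap.sub_apply, map_sub, f.Φ, LinearMap.sub_apply, Module.End.one_apply,
      Module.End.one_apply]

lemma Hom.gen {A B : Reg.{u, v} Λ} (f : Hom A B) {x : A.V} (hx : x ∈ A.gen) : f.v x ∈ B.gen := by
  rw [mem_gen] at hx ⊢
  obtain ⟨n, hn⟩ := hx
  exact ⟨n, by rw [← f.pow, hn, map_zero]⟩

lemma Hom.com {A B : Reg.{u, v} Λ} (f : Hom A B) {x : A.V} (hx : x ∈ A.com) : f.v x ∈ B.com := by
  rw [Reg.com, Submodule.mem_iInf] at hx ⊢
  intro n
  obtain ⟨y, hy⟩ := hx n
  exact ⟨f.v y, by rw [← f.pow, hy]⟩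

/-- The generalized eigenspaces form exact sequences. -/
lemma exact_gen {A B C : Reg.{u, v} Λ} (f : Hom A B) (g : Hom B C) (h : Exact f g) {x : B.V}
    (hx : x ∈ B.gen) (hg : g.v x = 0) : ∃ y ∈ A.gen, f.v y = x := by
  obtain ⟨y, rfl⟩ := (h.2 x).1 hg
  have hy : y ∈ A.gen ⊔ A.com := by
    rw [A.isCompl.sup_eq_top]
    trivial
  obtain ⟨a, ha, c, hc, rfl⟩ := Submodule.mem_sup.1 hy
  refine ⟨a, ha, ?_⟩
  have h1 : f.v c ∈ B.gen := by
    have h2 : f.v c = f.v (a + c) - f.v a := by rw [map_add]; abel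
    rw [h2]
    exact sub_mem hx (f.gen ha)
  have h3 : f.v c = 0 := (Submodule.disjoint_def.1 B.isCompl.disjoint) _ h1 (f.com hc)
  rw [map_add, h3, add_zero]

lemma ext_tmul (A : Reg.{u, v} Λ) (c : Λ) (m : A.M) : A.ext (c ⊗ₜ[ℚ] m) = c • A.reg m := by
  rw [ext, LinearMap.liftBaseChange_tmul]

lemma Φ_ext (A : Reg.{u, v} Λ) (x : Λ ⊗[ℚ] A.M) : A.Φ (A.ext x) = A.ext x := by
  induction x using TensorProduct.induction_on with
  | zero => simp
  | tmul c m => rw [ext_tmul, map_smul, A.inv]
  | add x y hx hy => rw [map_add, map_add, hx, hy]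

lemma ext_mem_gen (A : Reg.{u, v} Λ) (x : Λ ⊗[ℚ] A.M) : A.ext x ∈ A.gen := by
  rw [mem_gen]
  refine ⟨1, ?_⟩
  rw [pow_one, LinearMap.sub_apply, Φ_ext, Module.End.one_apply, sub_self]

/-- the map on `Λ ⊗ M` -/
noncomputable def Hom.e {A B : Reg.{u, v} Λ} (f : Hom A B) : Λ ⊗[ℚ] A.M →ₗ[Λ] Λ ⊗[ℚ] B.M :=
  f.m.baseChange Λ

lemma Hom.ext_e {A B : Reg.{u, v} Λ} (f : Hom A B) (x : Λ ⊗[ℚ] A.M) :
    B.ext (f.e x) = f.v (A.ext x) := by
  induction x using TensorProduct.induction_on with
  | zero => simp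
  | tmul c m =>
    rw [Hom.e, LinearMap.baseChange_tmul, ext_tmul, ext_tmul, map_smul, f.reg]
  | add x y hx hy => rw [map_add, map_add, map_add, map_add, hx, hy]

lemma Exact.e {A B C : Reg.{u, v} Λ} {f : Hom A B} {g : Hom B C} (h : Exact f g) :
    Function.Exact f.e g.e :=
  Module.Flat.lTensor_exact Λ h.1

/-- The assertion of Tate and Beilinson in terms of the generalized eigenspace: the regulator is an
isomorphism from `Λ ⊗ M` to the generalized eigenspace. -/
theorem tb_iff (A : Reg.{u, v} Λ) :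
    A.IsTB ↔ Function.Injective A.ext ∧ ∀ v ∈ A.gen, ∃ x, A.ext x = v := by
  constructor
  · rintro ⟨h1, h2, h3⟩
    refine ⟨h1, fun v hv => ?_⟩
    obtain ⟨n, hn⟩ := (A.mem_gen).1 hv
    exact h2 v (h3 n v hn)
  · rintro ⟨h1, h2⟩
    refine ⟨h1, fun v hv => h2 v ?_, fun n v hv => ?_⟩
    · refine (A.mem_gen).2 ⟨1, ?_⟩
      rw [pow_one, LinearMap.sub_apply, hv, Module.End.one_apply, sub_self]
    · obtain ⟨x, rfl⟩ := h2 v ((A.mem_gen).2 ⟨n, hv⟩)
      exact A.Φ_ext x

/-- **The five lemma** for the assertion of Tate and Beilinson. -/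
theorem five {A B C D E : Reg.{u, v} Λ} (f : Hom A B) (g : Hom B C) (h : Hom C D) (e : Hom D E)
    (h1 : Exact f g) (h2 : Exact g h) (h3 : Exact h e) (hA : A.IsTB) (hB : B.IsTB) (hD : D.IsTB)
    (hE : E.IsTB) : C.IsTB := by
  rw [tb_iff] at hA hB hD hE ⊢
  constructor
  · rw [injective_iff_map_eq_zero]
    intro x hx
    have h4 : h.e x = 0 := hD.1 (by rw [h.ext_e, hx, map_zero, map_zero])
    obtain ⟨y, rfl⟩ := (h2.e x).1 h4
    have h5 : g.v (B.ext y) = 0 := by rw [← g.ext_e]; exact hx
    obtain ⟨z, hz, hz'⟩ := exact_gen f g h1 (B.ext_mem_gen y) h5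
    obtain ⟨z', rfl⟩ := hA.2 z hz
    have h6 : y = f.e z' := hB.1 (by rw [f.ext_e, hz'])
    rw [h6]
    exact (h1.e _).2 ⟨z', rfl⟩
  · intro v hv
    obtain ⟨t, ht⟩ := hD.2 (h.v v) (h.gen hv)
    have h4 : e.e t = 0 := by
      apply hE.1
      rw [e.ext_e, ht, map_zero]
      exact (h3.2 _).2 ⟨v, rfl⟩
    obtain ⟨x, rfl⟩ := (h3.e t).1 h4
    have h5 : h.v (v - C.ext x) = 0 := by rw [map_sub, ← h.ext_e, ht, sub_self]
    obtain ⟨w, hw, hw'⟩ := exact_gen g h h2 (sub_mem hv (C.ext_mem_gen x)) h5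
    obtain ⟨y, rfl⟩ := hB.2 w hw
    refine ⟨x + g.e y, ?_⟩
    rw [map_add, g.ext_e, hw', add_sub_cancel]

/-- Direct factors. -/
theorem factor {A B : Reg.{u, v} Λ} (h : IsFactor A B) (hB : B.IsTB) : A.IsTB := by
  obtain ⟨s, r, hm, hv⟩ := h
  have he : ∀ x, r.e (s.e x) = x := by
    intro x
    induction x using TensorProduct.induction_on with
    | zero => simp
    | tmul c m => rw [Hom.e, Hom.e, LinearMap.baseChange_tmul, LinearMap.baseChange_tmul, hm]
    | add x y hx hy => rw [map_add, map_add, hx, hy]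
  rw [tb_iff] at hB ⊢
  constructor
  · intro x y hxy
    have h1 : s.e x = s.e y := hB.1 (by rw [s.ext_e, s.ext_e, hxy])
    rw [← he x, h1, he]
  · intro v hv'
    obtain ⟨x, hx⟩ := hB.2 (s.v v) (s.gen hv')
    exact ⟨r.e x, by rw [r.ext_e, hx, hv]⟩

/-- Isomorphic data. -/
theorem isoFactor {A B : Reg.{u, v} Λ} (h : IsIso A B) : IsFactor A B ∧ IsFactor B A := by
  obtain ⟨f, hm, hv⟩ := h
  let em := LinearEquiv.ofBijective f.m hm
  let ev := LinearEquiv.ofBijective f.v hv
  have h1 : ∀ x, f.m (em.symm x) = x := em.apply_symm_apply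
  have h2 : ∀ x, f.v (ev.symm x) = x := ev.apply_symm_apply
  let g : Hom B A :=
    { m := em.symm
      v := ev.symm
      Φ := fun x => hv.1 (by
        change f.v (ev.symm (B.Φ x)) = f.v (A.Φ (ev.symm x))
        rw [h2, f.Φ, h2])
      reg := fun x => hv.1 (by
        change f.v (ev.symm (B.reg x)) = f.v (A.reg (em.symm x))
        rw [h2, f.reg, h1]) }
  exact ⟨⟨f, g, em.symm_apply_apply, ev.symm_apply_apply⟩, ⟨g, f, h1, h2⟩⟩

theorem iso {A B : Reg.{u, v} Λ} (h : IsIso A B) : A.IsTB ↔ B.IsTB :=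
  ⟨factor (isoFactor h).2, factor (isoFactor h).1⟩

/-- Vanishing homology. -/
theorem tb_of_subsingleton {A : Reg.{u, v} Λ} (hM : Subsingleton A.M) (hV : Subsingleton A.V) :
    A.IsTB := by
  refine ⟨?_, fun v _ => ⟨0, Subsingleton.elim _ _⟩, fun _ _ _ => Subsingleton.elim _ _⟩
  have : Subsingleton (Λ ⊗[ℚ] A.M) := by
    refine ⟨fun x y => ?_⟩
    have h0 : ∀ x : Λ ⊗[ℚ] A.M, x = 0 := by
      intro x
      induction x using TensorProduct.induction_on with
      | zero => rfl
      | tmul c m => rw [Subsingleton.elim m 0, TensorProduct.tmul_zero]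
      | add x y hx hy => rw [hx, hy, add_zero]
    rw [h0 x, h0 y]
  exact Function.injective_of_subsingleton _

/-- No motivic homology, and the Frobenius is multiplication by a number different from `1`. -/
theorem tb_of_scalar {A : Reg.{u, v} Λ} (hM : Subsingleton A.M) {c : Λ} (hc : c ≠ 1)
    (hΦ : ∀ x, A.Φ x = c • x) : A.IsTB := by
  have h1 : ∀ (n : ℕ) (x : A.V), ((A.Φ - 1) ^ n) x = 0 → x = 0 := by
    intro n
    induction n with
    | zero => exact fun x hx => hx
    | succ n ih =>
      intro x hx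
      rw [pow_succ, Module.End.mul_apply] at hx
      have h2 := ih _ hx
      rw [LinearMap.sub_apply, hΦ, Module.End.one_apply] at h2
      have h3 : (c - 1) • x = 0 := by rw [sub_smul, one_smul]; exact h2
      exact (smul_eq_zero.1 h3).resolve_left (sub_ne_zero.2 hc)
  refine ⟨?_, fun v hv => ⟨0, ?_⟩, fun n v hv => ?_⟩
  · have : Subsingleton (Λ ⊗[ℚ] A.M) := by
      refine ⟨fun x y => ?_⟩
      have h0 : ∀ x : Λ ⊗[ℚ] A.M, x = 0 := by
        intro x
        induction x using TensorProduct.induction_on with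
        | zero => rfl
        | tmul c m => rw [Subsingleton.elim m 0, TensorProduct.tmul_zero]
        | add x y hx hy => rw [hx, hy, add_zero]
      rw [h0 x, h0 y]
    exact Function.injective_of_subsingleton _
  · rw [map_zero]
    refine (h1 1 v ?_).symm
    rw [pow_one, LinearMap.sub_apply, hv, Module.End.one_apply, sub_self]
  · rw [h1 n v hv, map_zero]

/-- `B` is induced from `A`: `A` is the homology over a finite field `K` of degree `d` over `F`, and `B` is
the homology over `F` of the same scheme. The motivic homology does not change, the `ℓ`-adic homology is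
the sum of `d` copies of the one over `K`, which are permuted by the Frobenius of `F`, and the first
component of the regulator over `F` is the regulator over `K`. -/
def IsInduced (d : ℕ) (A B : Reg.{u, v} Λ) : Prop :=
  ∃ (r : ℕ) (_ : d = r + 1) (θ : A.M ≃ₗ[ℚ] B.M) (e : B.V ≃ₗ[Λ] (Fin (r + 1) → A.V)),
    (∀ (x : B.V) (s : Fin r), e (B.Φ x) s.succ = e x s.castSucc) ∧
    (∀ x : B.V, e (B.Φ x) 0 = A.Φ (e x (Fin.last r))) ∧ ∀ m : A.M, e (B.reg (θ m)) 0 = A.reg m

/-- From the prime field to `K`. -/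
theorem tb_of_induced {d : ℕ} {A B : Reg.{u, v} Λ} (h : IsInduced d A B) (hB : B.IsTB) : A.IsTB := by
  obtain ⟨r, -, θ, e, h1, h2, h3⟩ := h
  -- the invariants are the constant vectors
  have hconst : ∀ x : B.V, B.Φ x = x → ∀ s, e x s = e x 0 := by
    intro x hx s
    induction s using Fin.induction with
    | zero => rfl
    | succ s ih => rw [← ih, ← h1, hx]
  have hinv : ∀ x : B.V, (∀ s, e x s = e x 0) → A.Φ (e x 0) = e x 0 → B.Φ x = x := by
    intro x hx hA
    apply e.injective
    funext s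
    induction s using Fin.cases with
    | zero => rw [h2, hx, hA]
    | succ s => rw [h1, hx, hx s.succ]
  let Θ : Λ ⊗[ℚ] A.M ≃ₗ[Λ] Λ ⊗[ℚ] B.M := θ.baseChange ℚ Λ A.M B.M
  have hΘ : ∀ x, e (B.ext (Θ x)) 0 = A.ext x := by
    intro x
    induction x using TensorProduct.induction_on with
    | zero => simp
    | tmul c m =>
      have h4 : Θ (c ⊗ₜ[ℚ] m) = c ⊗ₜ[ℚ] θ m := rfl
      rw [h4, ext_tmul, ext_tmul, map_smul, Pi.smul_apply, h3]
    | add x y hx hy =>
      rw [map_add, map_add, map_add, Pi.add_apply, hx, hy, map_add]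
  refine ⟨?_, ?_, ?_⟩
  · rw [injective_iff_map_eq_zero]
    intro x hx
    have h4 : B.ext (Θ x) = 0 := by
      apply e.injective
      funext s
      rw [hconst _ (B.Φ_ext _) s, hΘ, hx, map_zero]
      rfl
    have h5 : Θ x = 0 := hB.injective (by rw [h4, map_zero])
    exact (map_eq_zero_iff Θ Θ.injective).1 h5
  · intro v hv
    have h6 : ∀ s, e (e.symm fun _ => v) s = v := fun s => by rw [LinearEquiv.apply_symm_apply]
    obtain ⟨y, hy⟩ := hB.surjective (e.symm fun _ => v)
      (hinv _ (fun s => by rw [h6, h6]) (by rw [h6, hv]))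
    refine ⟨Θ.symm y, ?_⟩
    rw [← hΘ, LinearEquiv.apply_symm_apply, hy, h6]
  · -- a Jordan block of length two over `K` gives one over the prime field
    have key : ∀ v : A.V, A.Φ (A.Φ v - v) = A.Φ v - v → A.Φ v = v := by
      intro v hv
      set u : A.V := A.Φ v - v with hu
      have hΦv : A.Φ v = v + u := by rw [hu]; abel
      let γ : Λ := 1 / (r + 1 : ℕ)
      have hγ : ((r : Λ) + 1) * γ = 1 := by
        have : ((r + 1 : ℕ) : Λ) ≠ 0 := Nat.cast_ne_zero.2 (Nat.succ_ne_zero r)
        change ((r : Λ) + 1) * (1 / (r + 1 : ℕ)) = 1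
        rw [← Nat.cast_succ, mul_one_div, div_self this]
      let w : B.V := e.symm fun s => v - ((s : ℕ) : Λ) • (γ • u)
      have hw : ∀ s : Fin (r + 1), e w s = v - ((s : ℕ) : Λ) • (γ • u) := fun s => by
        change e (e.symm _) s = _
        rw [LinearEquiv.apply_symm_apply]
      have hd : ∀ s, e (B.Φ w - w) s = γ • u := by
        intro s
        rw [map_sub, Pi.sub_apply]
        induction s using Fin.cases with
        | zero =>
          rw [h2, hw, hw, map_sub, map_smul, map_smul, hv, hΦv, Fin.val_last]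
          have h8 : u = ((r : Λ) + 1) • (γ • u) := by rw [← mul_smul, hγ, one_smul]
          have h9 : ((0 : Fin (r + 1)) : ℕ) = 0 := rfl
          rw [h9, Nat.cast_zero, zero_smul, sub_zero]
          calc v + u - (r : Λ) • γ • u - v = u - (r : Λ) • (γ • u) := by abel
            _ = ((r : Λ) + 1) • (γ • u) - (r : Λ) • (γ • u) := by rw [← h8]
            _ = γ • u := by rw [add_smul, one_smul]; abel
        | succ s =>
          rw [h1, hw, hw, Fin.val_castSucc, Fin.val_succ, Nat.cast_succ, add_smul, one_smul]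
          abel
      have hinv2 : B.Φ (B.Φ w - w) = B.Φ w - w :=
        hinv _ (fun s => by rw [hd, hd]) (by rw [hd, map_smul, hv])
      have h10 : B.Φ w = w := by
        refine hB.semisimple 2 w ?_
        rw [pow_two, Module.End.mul_apply, LinearMap.sub_apply, LinearMap.sub_apply,
          Module.End.one_apply, Module.End.one_apply, hinv2, sub_self]
      have h11 : γ • u = 0 := by
        rw [← hd 0, h10, sub_self, map_zero]
        rfl
      have hγ0 : γ ≠ 0 := fun h => by rw [h, mul_zero] at hγ; exact zero_ne_one hγ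
      have h12 : u = 0 := (smul_eq_zero.1 h11).resolve_left hγ0
      rw [hΦv, h12, add_zero]
    intro n
    induction n with
    | zero =>
      intro v hv
      have : v = 0 := hv
      rw [this, map_zero]
    | succ n ih =>
      intro v hv
      rw [pow_succ, Module.End.mul_apply] at hv
      have h4 := ih _ hv
      rw [LinearMap.sub_apply, Module.End.one_apply] at h4
      exact key v h4

end Reg

end Pool.Agent.U213.TB
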