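import Pool.Agent.U213.TB.Defs
import Pool.Agent.U583.MW.Geo
import Pool.Agent.U583.MW.Cone
import Pool.Agent.Z125.UN.Sym
import Pool.Agent.Z125.UN.Dim2
import Pool.Agent.Q282.UZ.Sys

/-!
# Tate–Beilinson for all schemes and for trilinear hypersurfaces
-/

set_option autoImplicit false

open CategoryTheory AlgebraicGeometry MvPolynomial Module Pool.Agent.Y116.UV Pool.Agent.Z125.UN
  Pool.Agent.U583.MW

namespace Pool.Agent.U213.TB

universe u v

section

variable {k : Type} [Field k] {q : ℕ} {Λ : Type u} [Field Λ] [CharZero Λ]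
  (T : Homology.{u, v} k q Λ)

lemma tb_empty {X : Sch k} (h : IsEmpty X.left) : T.TB X := fun i j =>
  Reg.tb_of_subsingleton (T.empty i j X h).1 (T.empty i j X h).2

lemma tb_point (hq : 1 < q) : T.TB (aff k k) := by
  obtain ⟨h1, h2, h3, h4⟩ := T.point
  intro i j
  by_cases hi : i = 0
  · subst hi
    by_cases hj : j = 0
    · subst hj
      have h5 : ∀ x, (T.H 0 0 (aff k k)).Φ x = x := fun x => by rw [h3, zpow_zero, one_smul]
      exact ⟨h4.1, fun v _ => h4.2 v, fun _ v _ => h5 v⟩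
    · refine Reg.tb_of_scalar (h1 0 j (Or.inr hj)) (c := (q : Λ) ^ j) ?_ (h3 j)
      have h6 : ((q : ℚ) ^ j) ≠ 1 := by
        intro h
        have h7 := (zpow_eq_one_iff_right₀ (by positivity : (0 : ℚ) ≤ q)
          (by exact_mod_cast hq.ne' : (q : ℚ) ≠ 1)).1 h
        exact hj h7
      intro h
      apply h6
      have h8 : ((((q : ℚ) ^ j : ℚ)) : Λ) = ((1 : ℚ) : Λ) := by
        push_cast
        exact h
      exact_mod_cast h8
  · exact Reg.tb_of_subsingleton (h1 i j (Or.inl hi)) (h2 i j hi)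

/-- `TB` has the closure properties `Bnd`. -/
theorem bnd (hq : 1 < q) : Bnd True T.TB where
  iso {X Y} h e hX i j := (Reg.iso (T.iso i j X Y h e)).1 (hX i j)
  total {Z X U} i o h ht hZ hU n j := by
    obtain ⟨d, a, b, h1, h2, h3⟩ := T.sequence j i o h ht
    obtain ⟨m, rfl⟩ : ∃ m, n = m + 1 := ⟨n - 1, by ring⟩
    exact Reg.five (d (m + 1)) (a (m + 1)) (b (m + 1)) (d m) (h1 (m + 1)) (h2 (m + 1)) (h3 m)
      (hU _ j) (hZ _ j) (hU _ j) (hZ _ j)
  opened {Z X U} i o h ht hZ hX n j := by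
    obtain ⟨d, a, b, h1, h2, h3⟩ := T.sequence j i o h ht
    obtain ⟨m, rfl⟩ : ∃ m, n = m + 1 := ⟨n - 1, by ring⟩
    exact Reg.five (a (m + 1)) (b (m + 1)) (d m) (a m) (h2 (m + 1)) (h3 m) (h1 m)
      (hZ _ j) (hX _ j) (hZ _ j) (hX _ j)
  closed {Z X U} i o h ht hX hU n j := by
    obtain ⟨d, a, b, h1, h2, h3⟩ := T.sequence j i o h ht
    exact Reg.five (b (n + 1)) (d n) (a n) (b n) (h3 n) (h1 n) (h2 n)
      (hX _ j) (hU _ j) (hX _ j) (hU _ j)
  space m n j := by
    obtain ⟨i, rfl⟩ : ∃ i, n = i + 2 * m := ⟨n - 2 * m, by ring⟩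
    obtain ⟨j, rfl⟩ : ∃ j', j = j' + m := ⟨j - m, by ring⟩
    have h1 := T.bundle i j k m (f1 k m) (aff k k) (𝟙 _) ⟨inferInstance, range_id m⟩
    have h2 := (Reg.iso h1).1 (tb_point T hq i j)
    exact (Reg.iso (T.iso _ _ _ _ (ft_aff True) ⟨(affIso (jouOne k m)).symm⟩)).1 h2
  jouanolou A _ _ _ m f U o hj hr h n j := by
    cases m with
    | zero =>
      refine tb_empty T ⟨fun x => ?_⟩ n j
      have h1 : o.left x ∈ Set.range o.left := ⟨x, rfl⟩
      rw [hr] at h1
      obtain ⟨l, -⟩ := h1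
      exact l.elim0
    | succ m => exact (Reg.iso (T.bundle n j A m f U o ⟨hj, hr⟩)).2 (h _ _)
  torus A _ _ _ h n j := Reg.factor (T.torus n j A) (h _ _)
  bundle A _ _ _ m f U o hj hr h n j := by
    cases m with
    | zero =>
      refine tb_empty T (isEmpty_aff' ?_) n j
      refine Ideal.Quotient.subsingleton_iff.mpr ?_
      rw [Ideal.eq_top_iff_one, Ideal.mem_span_singleton]
      exact ⟨-1, by simp⟩
    | succ m =>
      obtain ⟨i, rfl⟩ : ∃ i, n = i + 2 * m := ⟨n - 2 * m, by ring⟩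
      obtain ⟨j, rfl⟩ : ∃ j', j = j' + m := ⟨j - m, by ring⟩
      exact (Reg.iso (T.bundle i j A m f U o ⟨hj, hr⟩)).1 (h _ _)
where
  isEmpty_aff' {B : Type} [CommRing B] [Algebra k B] (h : Subsingleton B) :
      IsEmpty (aff k B).left := (inferInstance : IsEmpty (PrimeSpectrum B))

end

/-- `TB` in the twist `j`, all degrees: no affine bundles are needed. -/
theorem clo_twist {k : Type} [Field k] {q : ℕ} {Λ : Type u} [Field Λ] [CharZero Λ]
    (T : Homology.{u, v} k q Λ) (j : ℤ) : Pool.Agent.Q282.UK.Clo True (T.TBTwist j) where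
  iso {X Y} h e hX i := (Reg.iso (T.iso i j X Y h e)).1 (hX i)
  total {Z X U} i o h ht hZ hU n := by
    obtain ⟨d, a, b, h1, h2, h3⟩ := T.sequence j i o h ht
    obtain ⟨m, rfl⟩ : ∃ m, n = m + 1 := ⟨n - 1, by ring⟩
    exact Reg.five (d (m + 1)) (a (m + 1)) (b (m + 1)) (d m) (h1 (m + 1)) (h2 (m + 1)) (h3 m)
      (hU _) (hZ _) (hU _) (hZ _)
  opened {Z X U} i o h ht hZ hX n := by
    obtain ⟨d, a, b, h1, h2, h3⟩ := T.sequence j i o h ht
    obtain ⟨m, rfl⟩ : ∃ m, n = m + 1 := ⟨n - 1, by ring⟩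
    exact Reg.five (a (m + 1)) (b (m + 1)) (d m) (a m) (h2 (m + 1)) (h3 m) (h1 m)
      (hZ _) (hX _) (hZ _) (hX _)
  torus A _ _ _ h n := Reg.factor (T.torus n j A) (h _)

section field

variable {k : Type} [Field k] [PerfectField k] {q : ℕ} {Λ : Type u} [Field Λ] [CharZero Λ]
  (T : Homology.{u, v} k q Λ)

/-- schemes of dimension at most `n` and trilinear forms with a block of at most `n + 2` variables -/
theorem dim_iff (hq : 1 < q) (n : ℕ) : T.TBDim n ↔ T.TBTri (n + 2) := by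
  have hB := bnd T hq
  refine ⟨fun h a b c F hm => ?_, fun h X hX hn => ?_⟩
  · have h2 : ∀ I : Ideal (MvPolynomial (Fin (n + 1)) k),
        T.TB (aff k (MvPolynomial (Fin (n + 1)) k ⧸ I)) :=
      dim_to_closed hB fun A _ _ _ hA => h _ (ft_aff True) (by rw [topDim_aff]; exact hA)
    exact of_block hB (fun a b c' hc' F => to_tri hB h2 a b c' hc' F) F hm
  · exact (dim_tri hB n).mpr (fun a b F => h a b (n + 2) F (Or.inr (Or.inr le_rfl))) X hX hn

lemma isEmpty_of_dim_lt {X : Scheme.{0}} (h : topologicalKrullDim X < (0 : ℕ)) : IsEmpty X := by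
  by_contra hne
  rw [not_isEmpty_iff] at hne
  obtain ⟨x⟩ := hne
  have h1 : Nonempty (TopologicalSpace.IrreducibleCloseds X) :=
    ⟨⟨closure {x}, isIrreducible_singleton.closure, isClosed_closure⟩⟩
  have h2 : 0 ≤ topologicalKrullDim X := Order.krullDim_nonneg
  exact absurd (lt_of_le_of_lt h2 h) (by simp)

omit [PerfectField k] in
/-- The members of a class like the class of smooth projective schemes. -/
theorem pr_iff (hq : 1 < q) {C : Sch k → Prop} (hC : IsProjClass T C) (n : ℕ) :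
    T.TBPr C n ↔ T.TBDim n := by
  constructor
  · intro h
    have hB := bnd T hq
    -- one step
    have step : ∀ d : ℕ, d ≤ n → (∀ Z : Sch k, FT True Z → topologicalKrullDim Z.left < d →
        T.TB Z) → T.TBDim d := by
      intro d hd hlow X hX hdim
      refine of_affine_dim hB (fun A _ _ _ hA => ?_) X hX hdim
      refine noeth hB (fun B _ _ hB' => p_empty hB B hB') fun p hp => ?_
      obtain ⟨w, Z, Y, V, i, o, hw, ht, hCY, hd1, hd2, hf⟩ :=
        hC.alteration d (A ⧸ p) ((ringKrullDim_quotient_le p).trans hA)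
      refine ⟨w, hw, fun a b => Reg.factor (hf a b) ?_⟩
      have h1 : T.TB Z := hlow Z (ft_closed i (hC.ft Y hCY) ht.closed) hd2
      exact hB.opened i o (hC.ft Y hCY) ht h1 (h Y hCY (hd1.trans (by exact_mod_cast hd))) a b
    have key : ∀ d : ℕ, d ≤ n → T.TBDim d := by
      intro d
      induction d with
      | zero => exact fun hd => step 0 hd fun Z _ hZ => tb_empty T (isEmpty_of_dim_lt hZ)
      | succ d ih =>
        intro hd
        refine step (d + 1) hd fun Z hZ hZd => ih (by omega) Z hZ ?_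
        have h4 : ((d + 1 : ℕ) : WithBot ℕ∞) = ((d : ℕ) : WithBot ℕ∞) + 1 := by norm_num
        rw [h4] at hZd
        exact ENat.WithBot.lt_add_one_iff.mp hZd
    exact key n le_rfl
  · intro h X hX hn
    exact h X (hC.ft X hX) hn

end field

end Pool.Agent.U213.TB
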