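import Pool.Agent.U213.TB.Main
import Pool.Agent.U213.TB.Few

/-!
# Tate–Beilinson over all finite fields of characteristic `p`
-/

set_option autoImplicit false

open CategoryTheory AlgebraicGeometry MvPolynomial Module Pool.Agent.Y116.UV Pool.Agent.Z125.UN
  Pool.Agent.Q282.UZ

namespace Pool.Agent.U213.TB

universe u v

lemma ft_toPrime (p : ℕ) [Fact p.Prime] {K : Type} [Field K] [Finite K] [Algebra (ZMod p) K]
    {X : Sch K} (h : FT True X) : FT True (toPrime p X) := by
  have hfin : Module.Finite (ZMod p) K := Module.finite_iff_finite.2 inferInstance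
  have hft : Algebra.FiniteType (ZMod p) K := inferInstance
  have h0 : (toPrime p X).hom =
      X.hom ≫ Spec.map (CommRingCat.ofHom (algebraMap (ZMod p) K)) := rfl
  have h1 := h.locallyOfFiniteType
  have h2 := h.quasiCompact
  have h3 := h.separated trivial
  have h4 : LocallyOfFiniteType (Spec.map (CommRingCat.ofHom (algebraMap (ZMod p) K))) := by
    rw [HasRingHomProperty.Spec_iff (P := @LocallyOfFiniteType)]
    exact (RingHom.finiteType_algebraMap).mpr hft
  refine ⟨?_, ?_, fun _ => ?_⟩
  · rw [h0]
    exact MorphismProperty.comp_mem _ X.hom _ h1 h4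
  · rw [h0]
    exact MorphismProperty.comp_mem _ X.hom _ h2
      (inferInstance : QuasiCompact (Spec.map (CommRingCat.ofHom (algebraMap (ZMod p) K))))
  · rw [h0]
    exact MorphismProperty.comp_mem _ X.hom _ h3
      (inferInstance : IsSeparated (Spec.map (CommRingCat.ofHom (algebraMap (ZMod p) K))))

/-- `TB` for all separated schemes of finite type over all finite fields of characteristic `p`. -/
def System.TBAll {p : ℕ} [Fact p.Prime] {Λ : Type u} [Field Λ] [CharZero Λ]
    (S : System.{u, v} p Λ) : Prop :=
  ∀ (K : Type) [Field K] [Finite K] [Algebra (ZMod p) K] (X : Sch K), FT True X → (S.T K).TB X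

/-- `TB` for the smooth affine hypersurfaces `∑_{(i, j, k) ∈ E} x_i y_j z_k = 1` over the prime field, for
all finite sets `E` of triples such that every variable `x_i` occurs in at most three monomials. -/
def System.TBSparse {p : ℕ} [Fact p.Prime] {Λ : Type u} [Field Λ] [CharZero Λ]
    (S : System.{u, v} p Λ) : Prop :=
  ∀ (a b c : ℕ) (E : Finset (Fin a × Fin b × Fin c)), Sparse E →
    (S.T (ZMod p)).TB (tripS (ZMod p) E)

lemma one_lt_card (K : Type) [Field K] [Finite K] : 1 < Nat.card K :=
  Finite.one_lt_card

/-- All finite fields of characteristic `p` and sparse hypersurfaces over the prime field. -/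
theorem prime_iff {p : ℕ} [Fact p.Prime] {Λ : Type u} [Field Λ] [CharZero Λ]
    (S : System.{u, v} p Λ) : S.TBAll ↔ S.TBSparse := by
  have hB := bnd (S.T (ZMod p)) (one_lt_card (ZMod p))
  have hR : ShortPresents (ZMod p) := short_presents ZMod.intCast_surjective
  constructor
  · intro h a b c E _
    exact h (ZMod p) _ (ft_aff True)
  · intro h K _ _ _ X hX i j
    exact Reg.tb_of_induced (S.restriction K i j X hX)
      ((sparse_iff hR hB).2 h (toPrime p X) (ft_toPrime p hX) i j)

/-- `TB` in the twist `j` for all separated schemes of finite type over all finite fields of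
characteristic `p`. -/
def System.TBTwistAll {p : ℕ} [Fact p.Prime] {Λ : Type u} [Field Λ] [CharZero Λ]
    (S : System.{u, v} p Λ) (j : ℤ) : Prop :=
  ∀ (K : Type) [Field K] [Finite K] [Algebra (ZMod p) K] (X : Sch K), FT True X →
    (S.T K).TBTwist j X

/-- `TB` in the twist `j` for all systems of bilinear equations over the prime field with at most three
terms in every equation. -/
def System.TBTwistSys {p : ℕ} [Fact p.Prime] {Λ : Type u} [Field Λ] [CharZero Λ]
    (S : System.{u, v} p Λ) (j : ℤ) : Prop :=
  ∀ (a b c : ℕ) (E : Fin c → Finset (Fin a × Fin b)), (∀ l, (E l).card ≤ 3) →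
    (S.T (ZMod p)).TBTwist j (sysS (ZMod p) E)

/-- In every twist: all finite fields of characteristic `p` and systems of bilinear equations with at
most three terms. -/
theorem twist_iff {p : ℕ} [Fact p.Prime] {Λ : Type u} [Field Λ] [CharZero Λ]
    (S : System.{u, v} p Λ) (j : ℤ) : S.TBTwistAll j ↔ S.TBTwistSys j := by
  have hR : ShortPresents (ZMod p) := short_presents ZMod.intCast_surjective
  have hC := three_iff hR (clo_twist (S.T (ZMod p)) j)
  constructor
  · intro h a b c E _
    exact h (ZMod p) _ (ft_aff True)
  · intro h K _ _ _ X hX i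
    exact Reg.tb_of_induced (S.restriction K i j X hX)
      (hC.2 h (toPrime p X) (ft_toPrime p hX) i)

end Pool.Agent.U213.TB
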